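import Pool.Agent.W622.BK.Stm

set_option autoImplicit false

/-! Project BK: a 2-cocycle vanishing on the relations is a coboundary. -/

namespace Pool.Agent.W131.BK
open Pool.Agent.W622.BK
open Module

universe u

variable {k : Type u} [Field k] {L : Type u} [LieRing L] [LieAlgebra k L]

/-- data of a 2-cocycle -/
structure Cc (k : Type u) [Field k] (L : Type u) [LieRing L] [LieAlgebra k L] where
  f : L →ₗ[k] L →ₗ[k] k
  alt : ∀ x, f x x = 0
  jac : ∀ x y z, f ⁅x, y⁆ z + f ⁅y, z⁆ x + f ⁅z, x⁆ y = 0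

theorem Cc.skew (C : Cc k L) (x y : L) : C.f x y = - C.f y x := by
  have h := C.alt (x + y)
  rw [map_add (C.f (x + y)), map_add C.f, LinearMap.add_apply, LinearMap.add_apply, C.alt x,
    C.alt y, zero_add, add_zero, add_comm] at h
  exact eq_neg_of_add_eq_zero_left h

/-- the central extension -/
def Ex (_ : Cc k L) : Type u := L × k

noncomputable instance (C : Cc k L) : AddCommGroup (Ex C) := inferInstanceAs (AddCommGroup (L × k))

noncomputable instance (C : Cc k L) : Module k (Ex C) := inferInstanceAs (Module k (L × k))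

/-- build an element -/
def mk (C : Cc k L) (x : L) (s : k) : Ex C := (x, s)

/-- first component -/
def fs {C : Cc k L} (x : Ex C) : L := x.1

/-- second component -/
def sn {C : Cc k L} (x : Ex C) : k := x.2

theorem ext' {C : Cc k L} {x y : Ex C} (h1 : fs x = fs y) (h2 : sn x = sn y) : x = y :=
  Prod.ext h1 h2

theorem fs_add {C : Cc k L} (x y : Ex C) : fs (x + y) = fs x + fs y := rfl
theorem sn_add {C : Cc k L} (x y : Ex C) : sn (x + y) = sn x + sn y := rfl
theorem fs_smul {C : Cc k L} (c : k) (x : Ex C) : fs (c • x) = c • fs x := rfl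
theorem sn_smul {C : Cc k L} (c : k) (x : Ex C) : sn (c • x) = c * sn x := rfl
theorem fs_zero {C : Cc k L} : fs (0 : Ex C) = 0 := rfl
theorem sn_zero {C : Cc k L} : sn (0 : Ex C) = 0 := rfl
theorem fs_mk (C : Cc k L) (x : L) (s : k) : fs (mk C x s) = x := rfl
theorem sn_mk (C : Cc k L) (x : L) (s : k) : sn (mk C x s) = s := rfl

noncomputable instance (C : Cc k L) : Bracket (Ex C) (Ex C) :=
  ⟨fun x y => mk C ⁅fs x, fs y⁆ (C.f (fs x) (fs y))⟩

theorem fs_lie {C : Cc k L} (x y : Ex C) : fs ⁅x, y⁆ = ⁅fs x, fs y⁆ := rfl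
theorem sn_lie {C : Cc k L} (x y : Ex C) : sn ⁅x, y⁆ = C.f (fs x) (fs y) := rfl

noncomputable instance (C : Cc k L) : LieRing (Ex C) where
  add_lie x y z := by
    apply ext'
    · rw [fs_lie, fs_add, fs_add, fs_lie, fs_lie, add_lie]
    · rw [sn_lie, fs_add, sn_add, sn_lie, sn_lie, map_add, LinearMap.add_apply]
  lie_add x y z := by
    apply ext'
    · rw [fs_lie, fs_add, fs_add, fs_lie, fs_lie, lie_add]
    · rw [sn_lie, fs_add, sn_add, sn_lie, sn_lie, map_add]
  lie_self x := by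
    apply ext'
    · rw [fs_lie, lie_self, fs_zero]
    · rw [sn_lie, C.alt, sn_zero]
  leibniz_lie x y z := by
    apply ext'
    · rw [fs_lie, fs_add, fs_lie, fs_lie, fs_lie, fs_lie, fs_lie]
      exact leibniz_lie _ _ _
    · rw [sn_lie, sn_add, sn_lie, sn_lie, fs_lie, fs_lie, fs_lie]
      have h := C.jac (fs x) (fs y) (fs z)
      have h1 := C.skew (fs x) ⁅fs y, fs z⁆
      have h2 : C.f (fs y) ⁅fs x, fs z⁆ = C.f ⁅fs z, fs x⁆ (fs y) := by
        rw [C.skew, ← lie_skew (fs z) (fs x), map_neg, LinearMap.neg_apply]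
      rw [h1, h2]
      linear_combination -h

noncomputable instance (C : Cc k L) : LieAlgebra k (Ex C) where
  lie_smul c x y := by
    apply ext'
    · rw [fs_lie, fs_smul, fs_smul, fs_lie, lie_smul]
    · rw [sn_lie, fs_smul, sn_smul, sn_lie, map_smul, smul_eq_mul]

/-- the projection -/
noncomputable def pr1 (C : Cc k L) : Ex C →ₗ⁅k⁆ L where
  toFun := fs
  map_add' := fs_add
  map_smul' := fs_smul
  map_lie' := fun {x y} => fs_lie x y

/-- the second component as a linear map -/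
noncomputable def pr2 (C : Cc k L) : Ex C →ₗ[k] k where
  toFun := sn
  map_add' := sn_add
  map_smul' := sn_smul

/-- the lift to the central extension -/
noncomputable def th (C : Cc k L) {m : ℕ} (v : Fin m → L) : FreeLieAlgebra k (Fin m) →ₗ⁅k⁆ Ex C :=
  FreeLieAlgebra.lift k (fun i => mk C (v i) 0)

theorem pr1_th (C : Cc k L) {m : ℕ} (v : Fin m → L) (z : FreeLieAlgebra k (Fin m)) :
    fs (th C v z) = freeTo k L v z := by
  have h : (pr1 C).comp (th C v) = freeTo k L v := by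
    apply FreeLieAlgebra.hom_ext
    intro i
    show fs (th C v (FreeLieAlgebra.of k i)) = freeTo k L v (FreeLieAlgebra.of k i)
    unfold th freeTo
    rw [FreeLieAlgebra.lift_of_apply, FreeLieAlgebra.lift_of_apply, fs_mk]
  exact congrArg (fun g : FreeLieAlgebra k (Fin m) →ₗ⁅k⁆ L => g z) h

theorem th_of (C : Cc k L) {m : ℕ} (v : Fin m → L) (i : Fin m) :
    th C v (FreeLieAlgebra.of k i) = mk C (v i) 0 := by
  unfold th
  rw [FreeLieAlgebra.lift_of_apply]

theorem th_two (C : Cc k L) {m : ℕ} (v : Fin m → L) (c : Fin m → Fin m → k) :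
    sn (th C v (∑ i, ∑ i', c i i' • ⁅FreeLieAlgebra.of k i, FreeLieAlgebra.of k i'⁆)) =
      ∑ i, ∑ i', c i i' * C.f (v i) (v i') := by
  have h : ∀ z : FreeLieAlgebra k (Fin m), sn (th C v z) =
    ((pr2 C).comp (th C v : FreeLieAlgebra k (Fin m) →ₗ[k] Ex C)) z := fun z => rfl
  rw [h, map_sum]
  refine Finset.sum_congr rfl fun i _ => ?_
  rw [map_sum]
  refine Finset.sum_congr rfl fun i' _ => ?_
  rw [map_smul, smul_eq_mul, ← h, LieHom.map_lie, sn_lie, th_of, th_of, fs_mk, fs_mk]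

theorem freeTo_two {m : ℕ} (v : Fin m → L) (c : Fin m → Fin m → k) :
    freeTo k L v (∑ i, ∑ i', c i i' • ⁅FreeLieAlgebra.of k i, FreeLieAlgebra.of k i'⁆) =
      ∑ i, ∑ i', c i i' • ⁅v i, v i'⁆ := by
  have h : ∀ z : FreeLieAlgebra k (Fin m), freeTo k L v z =
    (freeTo k L v : FreeLieAlgebra k (Fin m) →ₗ[k] L) z := fun z => rfl
  rw [h, map_sum]
  refine Finset.sum_congr rfl fun i _ => ?_
  rw [map_sum]
  refine Finset.sum_congr rfl fun i' _ => ?_
  rw [map_smul, ← h, LieHom.map_lie]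
  unfold freeTo
  rw [FreeLieAlgebra.lift_of_apply, FreeLieAlgebra.lift_of_apply]

theorem degTwo_form {m : ℕ} {r : FreeLieAlgebra k (Fin m)} (h : r ∈ degTwo k m) :
    ∃ c : Fin m → Fin m → k,
      r = ∑ i, ∑ i', c i i' • ⁅FreeLieAlgebra.of k i, FreeLieAlgebra.of k i'⁆ := by
  unfold degTwo at h
  rw [Submodule.mem_span_range_iff_exists_fun] at h
  obtain ⟨c, hc⟩ := h
  refine ⟨fun i i' => c (i, i'), ?_⟩
  rw [← hc, Fintype.sum_prod_type]

theorem surj {X : Submodule k L} (hX : LieSubalgebra.lieSpan k L (X : Set L) = ⊤) {m : ℕ}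
    (b : Basis (Fin m) k X) : Function.Surjective (freeTo k L (fun i => (b i : L))) := by
  have h1 : LieSubalgebra.lieSpan k L (X : Set L) ≤ (freeTo k L (fun i => (b i : L))).range := by
    rw [LieSubalgebra.lieSpan_le]
    intro x hx
    have h2 := b.sum_repr ⟨x, hx⟩
    have h3 : ((∑ i, b.repr ⟨x, hx⟩ i • b i : X) : L) = x := congrArg (Subtype.val) h2
    have h4 : (∑ i, b.repr ⟨x, hx⟩ i • (b i : L)) = x := by
      rw [Submodule.coe_sum] at h3
      exact h3
    rw [← h4]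
    refine ⟨∑ i, b.repr ⟨x, hx⟩ i • FreeLieAlgebra.of k i, ?_⟩
    have h : ∀ z : FreeLieAlgebra k (Fin m), freeTo k L (fun i => (b i : L)) z =
      (freeTo k L (fun i => (b i : L)) : FreeLieAlgebra k (Fin m) →ₗ[k] L) z := fun z => rfl
    show freeTo k L (fun i => (b i : L)) (∑ i, b.repr ⟨x, hx⟩ i • FreeLieAlgebra.of k i) = _
    rw [h, map_sum]
    refine Finset.sum_congr rfl fun i _ => ?_
    rw [map_smul, ← h]
    unfold freeTo
    rw [FreeLieAlgebra.lift_of_apply]
  rw [hX] at h1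
  intro x
  have h2 : x ∈ (freeTo k L (fun i => (b i : L))).range := h1 (LieSubalgebra.mem_top x)
  exact (LieHom.mem_range _ x).1 h2

theorem t_B2A : S_B2A.{u} := by
  intro k _ L _ _ X hX hQ f hf1 hf2 hf3
  obtain ⟨m, b, hb⟩ := hQ
  let C : Cc k L := ⟨f, hf1, hf2⟩
  set v : Fin m → L := fun i => (b i : L) with hv
  have hker : (freeTo k L v).ker ≤ (th C v).ker := by
    refine hb.trans ?_
    rw [LieSubmodule.lieSpan_le]
    rintro r ⟨hr1, hr2⟩
    obtain ⟨c, rfl⟩ := degTwo_form hr1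
    show _ ∈ (th C v).ker
    rw [LieHom.mem_ker]
    apply ext'
    · rw [pr1_th, fs_zero]
      exact hr2
    · rw [th_two, sn_zero]
      rw [freeTo_two] at hr2
      exact hf3 m v c (fun i => (b i).2) hr2
  have hsurj := surj hX b
  obtain ⟨s, hs⟩ := LinearMap.exists_rightInverse_of_surjective
    (freeTo k L v : FreeLieAlgebra k (Fin m) →ₗ[k] L) (LinearMap.range_eq_top.2 hsurj)
  have hs' : ∀ x : L, freeTo k L v (s x) = x := fun x =>
    congrArg (fun g : L →ₗ[k] L => g x) hs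
  refine ⟨((pr2 C).comp (th C v : FreeLieAlgebra k (Fin m) →ₗ[k] Ex C)).comp s, ?_⟩
  intro x y
  have h1 : freeTo k L v (s ⁅x, y⁆ - ⁅s x, s y⁆) = 0 := by
    rw [map_sub, LieHom.map_lie, hs', hs', hs', sub_self]
  have h2 : s ⁅x, y⁆ - ⁅s x, s y⁆ ∈ (freeTo k L v).ker := LieHom.mem_ker.2 h1
  have h3 : th C v (s ⁅x, y⁆ - ⁅s x, s y⁆) = 0 := LieHom.mem_ker.1 (hker h2)
  rw [map_sub, sub_eq_zero] at h3
  show f x y = sn (th C v (s ⁅x, y⁆))
  rw [h3, LieHom.map_lie, sn_lie, pr1_th, pr1_th, hs', hs']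

end Pool.Agent.W131.BK
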